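import Mathlib.Combinatorics.SimpleGraph.Acyclic
import Mathlib.Algebra.Order.BigOperators.Group.Finset
import Mathlib.Tactic

set_option autoImplicit false

/-!
# MP_424b19_co: in the toppling game on a connected graph with a cycle Min makes the last move

We show that for every connected graph `G` that is not a tree the Max-start value is even and the
Min-start value is odd. In particular the two values are different.
-/

namespace Pool.Agent.Results.MP_424b19_co.MinMovesLast

open Finset

variable {V : Type*} [Fintype V] [DecidableEq V] (G : SimpleGraph V) [DecidableRel G.Adj]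

/-- The configuration after toppling the vertex `v`: one token moves from `v` to each neighbour
of `v`. -/
def topple (c : V → ℕ) (v : V) : V → ℕ := fun w =>
  if w = v then c v - G.degree v else if G.Adj v w then c w + 1 else c w

/-- A ready vertex is toppled. -/
def Topples (c d : V → ℕ) : Prop := ∃ v, G.degree v ≤ c v ∧ d = topple G c v

/-- No vertex is ready. -/
def Stable (c : V → ℕ) : Prop := ∀ v, c v < G.degree v

/-- The toppling phase starting with `c` stops with the configuration `d`. -/
def StopsAt (c d : V → ℕ) : Prop := Relation.ReflTransGen (Topples G) c d ∧ Stable G d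

/-- One new token is put on `v`. -/
def addToken (c : V → ℕ) (v : V) : V → ℕ := Function.update c v (c v + 1)

/-- Min can force the game to be over after at most `N` further turns if the present configuration
is `c`; it is the turn of Max if the Boolean is `true` and the turn of Min if it is `false`. The
game is over after a turn if the toppling phase never stops. -/
def MinForces : ℕ → Bool → (V → ℕ) → Prop
  | 0, _, _ => False
  | N + 1, true, c => ∀ v d, StopsAt G (addToken c v) d → MinForces N false d
  | N + 1, false, c => ∃ v, (¬ ∃ d, StopsAt G (addToken c v) d) ∨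
      ∃ d, StopsAt G (addToken c v) d ∧ MinForces N true d

/-- The Max-start value: the least number of turns in which Min can force the game to end if Max
takes the first turn. -/
noncomputable def Tmax : ℕ := sInf {N | MinForces G N true fun _ => 0}

/-- The Min-start value: the least number of turns in which Min can force the game to end if Min
takes the first turn. -/
noncomputable def Tmin : ℕ := sInf {N | MinForces G N false fun _ => 0}

/-! ### Toppling and the Laplacian -/

/-- The Laplacian. -/
def lap (f : V → ℤ) (v : V) : ℤ := ∑ w, if G.Adj v w then f v - f w else 0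

omit [DecidableEq V] in
lemma lap_add (f g : V → ℤ) (v : V) : lap G (f + g) v = lap G f v + lap G g v := by
  unfold lap
  rw [← sum_add_distrib]
  refine sum_congr rfl fun w _ => ?_
  by_cases h : G.Adj v w
  · simp only [if_pos h, Pi.add_apply]; ring
  · simp only [if_neg h, add_zero]

omit [DecidableEq V] in
lemma lap_sub (f g : V → ℤ) (v : V) : lap G (f - g) v = lap G f v - lap G g v := by
  unfold lap
  rw [← sum_sub_distrib]
  refine sum_congr rfl fun w _ => ?_
  by_cases h : G.Adj v w
  · simp only [if_pos h, Pi.sub_apply]; ring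
  · simp only [if_neg h, sub_zero]

omit [DecidableEq V] in
lemma sum_lap (f : V → ℤ) : ∑ v, lap G f v = 0 := by
  have h : ∑ v, lap G f v = - ∑ v, lap G f v := by
    unfold lap
    rw [← sum_neg_distrib]
    conv_lhs => rw [sum_comm]
    refine sum_congr rfl fun v _ => ?_
    rw [← sum_neg_distrib]
    refine sum_congr rfl fun w _ => ?_
    by_cases h : G.Adj v w
    · rw [if_pos h, if_pos h.symm]; ring
    · rw [if_neg h, if_neg fun h2 => h h2.symm, neg_zero]
  linarith

lemma topple_eq (c : V → ℕ) (v : V) (h : G.degree v ≤ c v) (w : V) :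
    ((topple G c v w : ℕ) : ℤ) = c w - lap G (Pi.single v 1) w := by
  unfold topple lap
  by_cases hw : w = v
  · subst hw
    rw [if_pos rfl, Nat.cast_sub h]
    congr 1
    have : ∀ x, (if G.Adj w x then (Pi.single w (1 : ℤ) : V → ℤ) w - (Pi.single w 1 : V → ℤ) x
        else 0) = if G.Adj w x then 1 else 0 := by
      intro x
      by_cases hx : G.Adj w x
      · rw [if_pos hx, if_pos hx, Pi.single_eq_same, Pi.single_eq_of_ne hx.ne', sub_zero]
      · rw [if_neg hx, if_neg hx]
    rw [sum_congr rfl fun x _ => this x, ← sum_filter, sum_const, nsmul_eq_mul, mul_one]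
    rw [← G.neighborFinset_eq_filter, G.card_neighborFinset_eq_degree]
  · rw [if_neg hw]
    have : ∀ x, (if G.Adj w x then (Pi.single v (1 : ℤ) : V → ℤ) w - (Pi.single v 1 : V → ℤ) x
        else 0) = if x = v then (if G.Adj w v then -1 else 0) else 0 := by
      intro x
      by_cases hxv : x = v
      · subst hxv
        by_cases hx : G.Adj w x
        · rw [if_pos hx, if_pos rfl, if_pos hx, Pi.single_eq_same, Pi.single_eq_of_ne hw, zero_sub]
        · rw [if_neg hx, if_pos rfl, if_neg hx]
      · rw [if_neg hxv, Pi.single_eq_of_ne hw, Pi.single_eq_of_ne hxv, sub_zero, ite_self]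
    rw [sum_congr rfl fun x _ => this x, sum_ite_eq' univ v, if_pos (mem_univ _)]
    by_cases h2 : G.Adj v w
    · rw [if_pos h2, if_pos h2.symm]; push_cast; ring
    · rw [if_neg h2, if_neg fun h3 => h2 h3.symm]; ring

lemma reach_eq {c d : V → ℕ} (h : Relation.ReflTransGen (Topples G) c d) :
    ∃ f : V → ℤ, ∀ w, (d w : ℤ) = c w - lap G f w := by
  induction h with
  | refl =>
    refine ⟨0, fun w => ?_⟩
    have : lap G 0 w = 0 := by
      unfold lap
      exact sum_eq_zero fun x _ => by simp
    rw [this, sub_zero]
  | tail _ h ih =>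
    obtain ⟨f, hf⟩ := ih
    obtain ⟨v, hv, rfl⟩ := h
    refine ⟨f + Pi.single v 1, fun w => ?_⟩
    rw [topple_eq G _ v hv w, hf w, lap_add]
    ring

lemma sum_reach {c d : V → ℕ} (h : Relation.ReflTransGen (Topples G) c d) :
    ∑ v, d v = ∑ v, c v := by
  obtain ⟨f, hf⟩ := reach_eq G h
  have : (∑ v, (d v : ℤ)) = ∑ v, (c v : ℤ) := by
    rw [sum_congr rfl fun v _ => hf v, sum_sub_distrib, sum_lap, sub_zero]
  exact_mod_cast this

omit [Fintype V] in
lemma addToken_apply (c : V → ℕ) (v w : V) :
    addToken c v w = c w + if w = v then 1 else 0 := by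
  unfold addToken
  rw [Function.update_apply]
  by_cases h : w = v
  · rw [if_pos h, if_pos h, h]
  · rw [if_neg h, if_neg h, add_zero]

lemma sum_addToken (c : V → ℕ) (v : V) : ∑ w, addToken c v w = ∑ w, c w + 1 := by
  rw [sum_congr rfl fun w _ => addToken_apply c v w, sum_add_distrib, sum_ite_eq' univ v,
    if_pos (mem_univ _)]

/-- The number of tokens of the largest stable configuration. -/
def capacity : ℕ := ∑ v, (G.degree v - 1)

omit [DecidableEq V] in
lemma stable_sum_le {c : V → ℕ} (h : Stable G c) : ∑ v, c v ≤ capacity G :=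
  sum_le_sum fun v _ => by have := h v; omega

omit [DecidableEq V] in
lemma stable_eq {c : V → ℕ} (h : Stable G c) (hs : ∑ v, c v = capacity G) (v : V) :
    c v + 1 = G.degree v := by
  have h1 : ∀ v ∈ (univ : Finset V), c v ≤ G.degree v - 1 := fun v _ => by have := h v; omega
  have h2 := (sum_eq_sum_iff_of_le h1).mp hs v (mem_univ v)
  have := h v
  omega

/-! ### The key lemma -/

/-- If the graph is connected, has an edge that is not a bridge, and the configuration has one token
less than the maximum of a stable configuration, then some token can be added in such a way that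
the toppling phase never stops. -/
lemma exists_infinite (hconn : G.Connected) {x y : V} (hxy : G.Adj x y)
    (hb : ¬ G.IsBridge s(x, y)) (c : V → ℕ) (hc : ∑ v, c v + 1 = capacity G) :
    ∃ v, ¬ ∃ d, StopsAt G (addToken c v) d := by
  by_contra hcon
  push Not at hcon
  obtain ⟨d1, hd1, hs1⟩ := hcon x
  obtain ⟨d2, hd2, hs2⟩ := hcon y
  have e1 : ∀ v, d1 v + 1 = G.degree v := stable_eq G hs1 (by
    rw [sum_reach G hd1, sum_addToken, hc])
  have e2 : ∀ v, d2 v + 1 = G.degree v := stable_eq G hs2 (by
    rw [sum_reach G hd2, sum_addToken, hc])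
  obtain ⟨f1, hf1⟩ := reach_eq G hd1
  obtain ⟨f2, hf2⟩ := reach_eq G hd2
  set h : V → ℤ := f1 - f2 with hh
  have hlap : ∀ v, lap G h v = (if v = x then 1 else 0) - (if v = y then 1 else 0) := by
    intro v
    rw [hh, lap_sub]
    have a1 := hf1 v
    have a2 := hf2 v
    rw [addToken_apply] at a1 a2
    have a3 : (d1 v : ℤ) = d2 v := by
      have := e1 v
      have := e2 v
      exact_mod_cast (by omega : d1 v = d2 v)
    push_cast at a1 a2
    linarith
  have : Nonempty V := ⟨x⟩
  obtain ⟨m, hm⟩ := Finite.exists_max h
  set A : Finset V := univ.filter fun v => h v = h m with hA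
  set t : V × V → ℤ := fun p => if G.Adj p.1 p.2 then h p.1 - h p.2 else 0 with ht
  have hS : ∑ p ∈ A ×ˢ (univ : Finset V), t p =
      (if x ∈ A then 1 else 0) - (if y ∈ A then 1 else 0) := by
    rw [sum_product]
    have : ∀ v ∈ A, (∑ w, t (v, w)) = (if v = x then 1 else 0) - (if v = y then 1 else 0) :=
      fun v _ => hlap v
    rw [sum_congr rfl this, sum_sub_distrib, sum_ite_eq' A x, sum_ite_eq' A y]
  have hnn : ∀ p ∈ A ×ˢ (univ : Finset V), 0 ≤ t p := by
    rintro ⟨v, w⟩ hp
    rw [mem_product, hA, mem_filter] at hp
    simp only [ht]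
    by_cases hvw : G.Adj v w
    · rw [if_pos hvw]
      have := hm w
      have := hp.1.2
      simp only at this
      linarith
    · rw [if_neg hvw]
  have hcross : ∀ v w, v ∈ A → w ∉ A → G.Adj v w → 1 ≤ t (v, w) := by
    intro v w hv hw hvw
    rw [hA, mem_filter] at hv hw
    simp only [ht, if_pos hvw]
    have h1 := hm w
    have h2 : h w ≠ h m := fun h3 => hw ⟨mem_univ _, h3⟩
    have h3 := hv.2
    have h4 : h w < h m := lt_of_le_of_ne h1 h2
    omega
  have hmA : m ∈ A := by rw [hA, mem_filter]; exact ⟨mem_univ _, rfl⟩
  -- there is a vertex outside `A`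
  obtain ⟨z, hz⟩ : ∃ z, z ∉ A := by
    by_contra hcon2
    push Not at hcon2
    have hconst : ∀ v, h v = h m := fun v => by
      have := hcon2 v
      rw [hA, mem_filter] at this
      exact this.2
    have h1 := hlap x
    rw [if_pos rfl, if_neg hxy.ne] at h1
    have h0 : lap G h x = 0 := by
      unfold lap
      refine sum_eq_zero fun w _ => ?_
      rw [hconst x, hconst w, sub_self, ite_self]
    rw [h0] at h1
    norm_num at h1
  have hxA : x ∈ A ∧ y ∉ A := by
    obtain ⟨p⟩ := hconn.preconnected m z
    obtain ⟨d, _, hd1, hd2⟩ := p.exists_boundary_dart (A : Set V) hmA hz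
    have h1 : (1 : ℤ) ≤ ∑ p ∈ A ×ˢ (univ : Finset V), t p :=
      (hcross d.fst d.snd hd1 hd2 d.adj).trans
        (single_le_sum (f := t) hnn (mem_product.mpr ⟨hd1, mem_univ _⟩))
    rw [hS] at h1
    constructor
    · by_contra hx
      rw [if_neg hx] at h1
      split_ifs at h1 <;> omega
    · intro hy
      rw [if_pos hy] at h1
      split_ifs at h1 <;> omega
  -- a second crossing edge
  rw [SimpleGraph.isBridge_iff, not_not] at hb
  obtain ⟨p⟩ := hb
  obtain ⟨d, _, hd1, hd2⟩ := p.exists_boundary_dart (A : Set V) hxA.1 hxA.2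
  have hadj := d.adj
  rw [SimpleGraph.deleteEdges_adj] at hadj
  have hne : (d.fst, d.snd) ≠ (x, y) := by
    intro he
    rw [Prod.mk.injEq] at he
    apply hadj.2
    rw [he.1, he.2]
    exact Set.mem_singleton _
  have h2 : (2 : ℤ) ≤ ∑ p ∈ A ×ˢ (univ : Finset V), t p := by
    have hsub : ({(d.fst, d.snd), (x, y)} : Finset (V × V)) ⊆ A ×ˢ (univ : Finset V) := by
      intro q hq
      rw [mem_insert, mem_singleton] at hq
      rcases hq with rfl | rfl
      · exact mem_product.mpr ⟨hd1, mem_univ _⟩
      · exact mem_product.mpr ⟨hxA.1, mem_univ _⟩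
    have h3 := sum_le_sum_of_subset_of_nonneg hsub (f := t) fun q hq _ => hnn q hq
    rw [sum_pair hne] at h3
    have h4 := hcross d.fst d.snd hd1 hd2 hadj.1
    have h5 := hcross x y hxA.1 hxA.2 hxy
    linarith
  rw [hS, if_pos hxA.1, if_neg hxA.2] at h2
  norm_num at h2

/-! ### The game -/

lemma minForces_mono {N M : ℕ} (h : N ≤ M) (b : Bool) (c : V → ℕ) (hN : MinForces G N b c) :
    MinForces G M b c := by
  induction N generalizing M b c with
  | zero => cases b <;> exact hN.elim
  | succ N ih =>
    obtain ⟨M, rfl⟩ : ∃ m, M = m + 1 := ⟨M - 1, by omega⟩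
    cases b with
    | true => exact fun v d hd => ih (by omega) _ _ (hN v d hd)
    | false =>
      obtain ⟨v, hv | ⟨d, hd, hw⟩⟩ := hN
      · exact ⟨v, Or.inl hv⟩
      · exact ⟨v, Or.inr ⟨d, hd, ih (by omega) _ _ hw⟩⟩

/-- The game ends. -/
lemma exists_minForces [Nonempty V] (M : ℕ) : ∀ (c : V → ℕ), ∑ v, c v + M = capacity G →
    ∀ b, MinForces G (M + 1) b c := by
  induction M with
  | zero =>
    intro c hc b
    have hno : ∀ v d, ¬ StopsAt G (addToken c v) d := by
      intro v d hd
      have h1 := stable_sum_le G hd.2
      rw [sum_reach G hd.1, sum_addToken] at h1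
      omega
    cases b with
    | true => exact fun v d hd => absurd hd (hno v d)
    | false =>
      obtain ⟨v⟩ := ‹Nonempty V›
      exact ⟨v, Or.inl fun ⟨d, hd⟩ => hno v d hd⟩
  | succ M ih =>
    intro c hc b
    have key : ∀ v d, StopsAt G (addToken c v) d → ∀ b, MinForces G (M + 1) b d := by
      intro v d hd
      apply ih
      rw [sum_reach G hd.1, sum_addToken]
      omega
    cases b with
    | true => exact fun v d hd => key v d hd false
    | false =>
      obtain ⟨v⟩ := ‹Nonempty V›
      refine ⟨v, ?_⟩
      by_cases h : ∃ d, StopsAt G (addToken c v) d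
      · obtain ⟨d, hd⟩ := h
        exact Or.inr ⟨d, hd, key v d hd true⟩
      · exact Or.inl h

/-- `N` is the value of the configuration `c`. -/
def IsValue (b : Bool) (c : V → ℕ) (N : ℕ) : Prop := IsLeast {N | MinForces G N b c} N

lemma exists_isValue [Nonempty V] {c : V → ℕ} (hc : Stable G c) (b : Bool) :
    ∃ N, IsValue G b c N := by
  have h1 := stable_sum_le G hc
  have h2 := exists_minForces G (capacity G - ∑ v, c v) c (by omega) b
  have hne : {N | MinForces G N b c}.Nonempty := ⟨_, h2⟩
  exact ⟨sInf {N | MinForces G N b c}, Nat.sInf_mem hne, fun M hM => Nat.sInf_le hM⟩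

/-- The parity of the values. -/
lemma parity [Nonempty V] (hconn : G.Connected) {x y : V} (hxy : G.Adj x y)
    (hb : ¬ G.IsBridge s(x, y)) (M : ℕ) : ∀ (c : V → ℕ), Stable G c → ∑ v, c v + M = capacity G →
    (∀ N, IsValue G false c N → Odd N) ∧
    ((∃ v, c v + 1 < G.degree v) → ∀ N, IsValue G true c N → Even N) := by
  induction M with
  | zero =>
    intro c hc hs
    refine ⟨fun N hN => ?_, fun ⟨v, hv⟩ => ?_⟩
    · have hno : ∀ v d, ¬ StopsAt G (addToken c v) d := by
        intro v d hd
        have h1 := stable_sum_le G hd.2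
        rw [sum_reach G hd.1, sum_addToken] at h1
        omega
      have h1 : N ≤ 1 := hN.2 ⟨x, Or.inl fun ⟨d, hd⟩ => hno x d hd⟩
      have h0 : N ≠ 0 := by
        rintro rfl
        exact hN.1.elim
      have : N = 1 := by omega
      rw [this]
      exact odd_one
    · have := stable_eq G hc (by omega) v
      omega
  | succ M ih =>
    intro c hc hs
    have hsum : ∀ v d, StopsAt G (addToken c v) d → ∑ w, d w + M = capacity G := by
      intro v d hd
      rw [sum_reach G hd.1, sum_addToken]
      omega
    refine ⟨fun N hN => ?_, fun ⟨v0, hv0⟩ N hN => ?_⟩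
    · -- Min to move
      have h0 : N ≠ 0 := by
        rintro rfl
        exact hN.1.elim
      obtain ⟨n, rfl⟩ : ∃ n, N = n + 1 := ⟨N - 1, by omega⟩
      by_cases hinf : ∃ v, ¬ ∃ d, StopsAt G (addToken c v) d
      · obtain ⟨v, hv⟩ := hinf
        have h1 : n + 1 ≤ 1 := hN.2 ⟨v, Or.inl hv⟩
        have : n = 0 := by omega
        rw [this]
        exact odd_one
      · have hM : M ≠ 0 := by
          rintro rfl
          exact hinf (exists_infinite G hconn hxy hb c hs)
        obtain ⟨v, hv | ⟨d, hd, hw⟩⟩ := hN.1
        · exact absurd ⟨v, hv⟩ hinf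
        · have hval : IsValue G true d n := by
            refine ⟨hw, fun m hm => ?_⟩
            have : n + 1 ≤ m + 1 := hN.2 ⟨v, Or.inr ⟨d, hd, hm⟩⟩
            omega
          have hex : ∃ v, d v + 1 < G.degree v := by
            by_contra hcon
            push Not at hcon
            have h1 : ∑ v, d v = capacity G :=
              sum_congr rfl fun v _ => by
                have := hcon v
                have := hd.2 v
                omega
            have := hsum v d hd
            omega
          exact ((ih d hd.2 (hsum v d hd)).2 hex n hval).add_one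
    · -- Max to move
      have h0 : N ≠ 0 := by
        rintro rfl
        exact hN.1.elim
      obtain ⟨n, rfl⟩ : ∃ n, N = n + 1 := ⟨N - 1, by omega⟩
      have hstop : StopsAt G (addToken c v0) (addToken c v0) := by
        refine ⟨Relation.ReflTransGen.refl, fun w => ?_⟩
        rw [addToken_apply]
        by_cases hw : w = v0
        · rw [if_pos hw, hw]; exact hv0
        · rw [if_neg hw]; exact hc w
      have hn0 : n ≠ 0 := by
        rintro rfl
        exact (hN.1 v0 _ hstop).elim
      obtain ⟨m, rfl⟩ : ∃ m, n = m + 1 := ⟨n - 1, by omega⟩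
      have hnot : ¬ MinForces G (m + 1) true c := by
        intro hcon
        have : m + 1 + 1 ≤ m + 1 := hN.2 hcon
        omega
      have hex : ∃ v d, StopsAt G (addToken c v) d ∧ ¬ MinForces G m false d := by
        by_contra hcon
        push Not at hcon
        exact hnot fun v d hd => hcon v d hd
      obtain ⟨v, d, hd, hnd⟩ := hex
      have hval : IsValue G false d (m + 1) := by
        refine ⟨hN.1 v d hd, fun k hk => ?_⟩
        by_contra hlt
        exact hnd (minForces_mono G (by omega) _ _ hk)
      exact ((ih d hd.2 (hsum v d hd)).1 (m + 1) hval).add_one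

/-- For every connected graph `G` that is not a tree, the Max-start value of the toppling game is
even, the Min-start value is odd, and hence they are different. (Both values are attained, that is,
Min can indeed force the game to end within these numbers of turns.) -/
theorem result (hconn : G.Connected) (htree : ¬ G.IsTree) :
    Even (Tmax G) ∧ Odd (Tmin G) ∧ Tmax G ≠ Tmin G ∧
      MinForces G (Tmax G) true (fun _ => 0) ∧ MinForces G (Tmin G) false (fun _ => 0) := by
  have hex : ∃ x y, G.Adj x y ∧ ¬ G.IsBridge s(x, y) := by
    by_contra hcon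
    push Not at hcon
    exact htree ⟨hconn, SimpleGraph.isAcyclic_iff_forall_adj_isBridge.mpr
      fun x y hxy => hcon x y hxy⟩
  obtain ⟨x, y, hxy, hb⟩ := hex
  have : Nontrivial V := ⟨x, y, hxy.ne⟩
  have h0 : Stable G fun _ => 0 := fun v => hconn.preconnected.degree_pos_of_nontrivial v
  have hdeg : 1 < G.degree x := by
    have hb' := hb
    rw [SimpleGraph.isBridge_iff, not_not] at hb'
    obtain ⟨p⟩ := hb'
    cases p with
    | nil => exact absurd rfl hxy.ne
    | @cons _ z _ h p =>
      rw [SimpleGraph.deleteEdges_adj] at h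
      have hzy : z ≠ y := by
        rintro rfl
        exact h.2 (Set.mem_singleton _)
      rw [← G.card_neighborFinset_eq_degree, one_lt_card]
      exact ⟨z, by simpa using h.1, y, by simpa using hxy, hzy⟩
  obtain ⟨a, ha⟩ := exists_isValue G h0 true
  obtain ⟨b, hb2⟩ := exists_isValue G h0 false
  have hp := parity G hconn hxy hb (capacity G) (fun _ => 0) h0 (by simp)
  have ha' : Tmax G = a := ha.csInf_eq
  have hb' : Tmin G = b := hb2.csInf_eq
  have h1 : Even a := hp.2 ⟨x, by simpa using hdeg⟩ a ha
  have h2 : Odd b := hp.1 b hb2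
  rw [ha', hb']
  refine ⟨h1, h2, ?_, ha.1, hb2.1⟩
  rintro rfl
  exact (Nat.not_even_iff_odd.mpr h2) h1

end Pool.Agent.Results.MP_424b19_co.MinMovesLast
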